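import Pool.Agent.H22.CM.Stm2
import Pool.Graph.R_seed8.Y77.PAR.ISO

/-! Part ALT of crew CM. -/

set_option autoImplicit false

namespace H26.CM

open Pool.Agent.Y382.PAR H22.CM Equiv Equiv.Perm

/-- the embedding of the permutations of `n` points, fixing `0` -/
theorem dec_mul {n : ℕ} (e f : Perm (Fin n)) :
    decomposeFin.symm ((0 : Fin (n + 1)), e * f) = decomposeFin.symm (0, e) * decomposeFin.symm (0, f) := by
  ext i
  refine Fin.cases ?_ (fun i => ?_) i
  · rw [Perm.mul_apply, decomposeFin_symm_apply_zero, decomposeFin_symm_apply_zero,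
      decomposeFin_symm_apply_zero]
  · rw [Perm.mul_apply, decomposeFin_symm_apply_succ, decomposeFin_symm_apply_succ,
      swap_self, Equiv.refl_apply, Equiv.refl_apply, decomposeFin_symm_apply_succ, swap_self,
      Equiv.refl_apply, Perm.mul_apply]

theorem dec_sign {n : ℕ} (e : Perm (Fin n)) :
    sign (decomposeFin.symm ((0 : Fin (n + 1)), e)) = sign e := by
  rw [decomposeFin.symm_sign, if_pos rfl, one_mul]

/-- the stabiliser -/
def St (n : ℕ) : Subgroup (alternatingGroup (Fin (n + 1))) :=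
  MulAction.stabilizer (alternatingGroup (Fin (n + 1))) (0 : Fin (n + 1))

theorem mem_St {n : ℕ} (σ : alternatingGroup (Fin (n + 1))) :
    σ ∈ St n ↔ (σ : Perm (Fin (n + 1))) 0 = 0 := by
  unfold St
  rw [MulAction.mem_stabilizer_iff]
  rfl

/-- the homomorphism onto the stabiliser -/
def jj (n : ℕ) : alternatingGroup (Fin n) →* St n where
  toFun e := ⟨⟨decomposeFin.symm (0, (e : Perm (Fin n))), by
    rw [mem_alternatingGroup, dec_sign]; exact mem_alternatingGroup.1 e.2⟩, by
    rw [mem_St]; exact decomposeFin_symm_apply_zero _ _⟩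
  map_one' := by
    apply Subtype.ext
    apply Subtype.ext
    show decomposeFin.symm (0, (1 : Perm (Fin n))) = 1
    have h := dec_mul (1 : Perm (Fin n)) 1
    rw [mul_one] at h
    exact (left_eq_mul.1 h)
  map_mul' e f := by
    apply Subtype.ext
    apply Subtype.ext
    exact dec_mul _ _

theorem jj_bij (n : ℕ) : Function.Bijective (jj n) := by
  constructor
  · intro e f h
    have h1 := congrArg (fun x : St n => ((x : alternatingGroup (Fin (n + 1))) : Perm (Fin (n + 1)))) h
    have h2 : decomposeFin.symm ((0 : Fin (n + 1)), (e : Perm (Fin n))) =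
      decomposeFin.symm (0, (f : Perm (Fin n))) := h1
    have h3 := decomposeFin.symm.injective h2
    exact Subtype.ext (Prod.mk.inj h3).2
  · rintro ⟨⟨σ, hσ⟩, hσ0⟩
    rw [mem_St] at hσ0
    obtain ⟨⟨p, e⟩, rfl⟩ := decomposeFin.symm.surjective σ
    have hp : p = 0 := by
      rw [← hσ0]
      exact (decomposeFin_symm_apply_zero _ _).symm
    subst hp
    refine ⟨⟨e, ?_⟩, ?_⟩
    · rw [mem_alternatingGroup] at hσ ⊢
      rw [← dec_sign]
      exact hσ
    · apply Subtype.ext
      apply Subtype.ext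
      rfl

/-- a 3-cycle `j ↦ i` -/
theorem exists_move {n : ℕ} (i j k : Fin (n + 1)) (hij : i ≠ j) (hik : i ≠ k) (hjk : j ≠ k) :
    ∃ a : alternatingGroup (Fin (n + 1)), (a : Perm (Fin (n + 1))) j = i ∧
      ∀ l, l ≠ i → l ≠ j → l ≠ k → (a : Perm (Fin (n + 1))) l = l := by
  refine ⟨⟨swap j i * swap i k, ?_⟩, ?_, ?_⟩
  · rw [mem_alternatingGroup, Perm.sign_mul, sign_swap hij.symm, sign_swap hik]
    rfl
  · show (swap j i * swap i k) j = i
    rw [Perm.mul_apply, swap_apply_of_ne_of_ne hij.symm hjk, swap_apply_left]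
  · intro l h1 h2 h3
    show (swap j i * swap i k) l = l
    rw [Perm.mul_apply, swap_apply_of_ne_of_ne h1 h3, swap_apply_of_ne_of_ne h2 h1]

theorem exists_fourth {n : ℕ} (hn : 3 ≤ n) (i j l : Fin (n + 1)) : ∃ k, k ≠ i ∧ k ≠ j ∧ k ≠ l := by
  by_contra hcon
  push Not at hcon
  have h1 : (Finset.univ : Finset (Fin (n + 1))) ⊆ {i, j, l} := by
    intro k _
    simp only [Finset.mem_insert, Finset.mem_singleton]
    by_cases h1 : k = i
    · exact Or.inl h1
    · by_cases h2 : k = j
      · exact Or.inr (Or.inl h2)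
      · exact Or.inr (Or.inr (hcon k h1 h2))
  have h2 := Finset.card_le_card h1
  rw [Finset.card_univ, Fintype.card_fin] at h2
  have h3 := Finset.card_le_three (a := i) (b := j) (c := l)
  omega

theorem t_ALT (hDTA : S_DTA) (hA4 : S_A4) : S_ALT := by
  intro n hn
  induction n, hn using Nat.le_induction with
  | base => exact hA4
  | succ n hn ih =>
    have hH : AllPar (St n) :=
      Pool.Agent.Y77.PAR.t_ISO _ _ (MulEquiv.ofBijective (jj n) (jj_bij n)) ih
    -- a member outside
    have h01 : (1 : Fin (n + 1)) ≠ 0 := by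
      intro h
      have := congrArg Fin.val h
      simp at this
      omega
    obtain ⟨k, hk1, hk0, -⟩ := exists_fourth (by omega : 3 ≤ n) (1 : Fin (n + 1)) 0 0
    obtain ⟨g, hg, -⟩ := exists_move (1 : Fin (n + 1)) 0 k h01 hk1.symm hk0.symm
    refine hDTA _ (St n) g ?_ ?_ ?_ hH
    · rw [mem_St, hg]
      exact h01
    · intro x hx
      rw [mem_St] at hx
      obtain ⟨i, hi⟩ : ∃ i, i = (x : Perm (Fin (n + 1))) 0 := ⟨_, rfl⟩
      have hi0 : i ≠ 0 := by rw [hi]; exact hx
      obtain ⟨a, ha1, ha0⟩ : ∃ a : alternatingGroup (Fin (n + 1)),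
          (a : Perm (Fin (n + 1))) 1 = i ∧ (a : Perm (Fin (n + 1))) 0 = 0 := by
        by_cases h : i = 1
        · exact ⟨1, h.symm, rfl⟩
        · obtain ⟨k, hk1, hk2, hk3⟩ := exists_fourth (by omega : 3 ≤ n) i 1 0
          obtain ⟨a, ha, ha'⟩ := exists_move i 1 k h hk1.symm hk2.symm
          exact ⟨a, ha, ha' 0 hi0.symm h01.symm hk3.symm⟩
      refine ⟨a, (mem_St a).2 ha0, g⁻¹ * a⁻¹ * x, ?_, by group⟩
      rw [mem_St]
      show ((g : Perm (Fin (n + 1)))⁻¹ * (a : Perm (Fin (n + 1)))⁻¹ * (x : Perm (Fin (n + 1)))) 0 = 0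
      rw [Perm.mul_apply, Perm.mul_apply, ← hi]
      have e1 : (a : Perm (Fin (n + 1)))⁻¹ i = 1 := by
        rw [Perm.inv_eq_iff_eq]
        exact ha1.symm
      have e2 : (g : Perm (Fin (n + 1)))⁻¹ 1 = 0 := by
        rw [Perm.inv_eq_iff_eq]
        exact hg.symm
      rw [e1, e2]
    · -- the index
      have h1 : (St n).index = Nat.card (MulAction.orbit (alternatingGroup (Fin (n + 1)))
          (0 : Fin (n + 1))) := by
        unfold St
        exact MulAction.index_stabilizer _ _
      have h2 : MulAction.orbit (alternatingGroup (Fin (n + 1))) (0 : Fin (n + 1)) = Set.univ := by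
        rw [Set.eq_univ_iff_forall]
        intro i
        by_cases h : i = 0
        · rw [h]; exact MulAction.mem_orbit_self _
        · obtain ⟨k, hk1, hk2, -⟩ := exists_fourth (by omega : 3 ≤ n) i 0 0
          obtain ⟨a, ha, -⟩ := exists_move i 0 k h hk1.symm hk2.symm
          exact ⟨a, ha⟩
      rw [h1, h2, Nat.card_univ, Nat.card_eq_fintype_card, Fintype.card_fin]
      omega

end H26.CM
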